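import Mathlib

set_option autoImplicit false

/-! Seven functionals on a space over `F_2`, indexed by the points of the Fano plane. -/

namespace Pool.Agent.K3h25.ET2

/-- `i, j, l` are the points of a line of the Fano plane (the point `i` is the vector `i + 1` of
`F_2^3`, in binary) -/
def Line (i j l : Fin 7) : Prop := (i.1 + 1) ^^^ (j.1 + 1) = l.1 + 1

/-- if the seven functionals are nonzero and not constant on a line, then for at least half of the
vectors the support is not contained in a line, and for at least three quarters of the vectors the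
support has at least two points -/
def StmFano : Prop :=
  ∀ (V : Type) [AddCommGroup V] [Module (ZMod 2) V] [Finite V] (f : Fin 7 → V →ₗ[ZMod 2] ZMod 2),
    (∀ i, f i ≠ 0) → (∀ i j l : Fin 7, Line i j l → ¬ (f i = f j ∧ f j = f l)) →
    2 * Nat.card {v : V // ∃ i j l : Fin 7, Line i j l ∧ ∀ k, f k v ≠ 0 → k = i ∨ k = j ∨ k = l} ≤
        Nat.card V ∧
      4 * Nat.card {v : V // ∃ i : Fin 7, ∀ k, f k v ≠ 0 → k = i} ≤ Nat.card V

end Pool.Agent.K3h25.ET2
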