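import Pool.Agent.K3h25.ET2.Sect
import Pool.Agent.K3h25.ET2.StmFano

/-! The seven functionals of a section over a subspace of dimension three which is not a member,
and the number of vectors with many values. -/

set_option autoImplicit false

namespace Pool.Agent.K3h25.ET2

open Pool.Agent.W622.ETG Module Pool.Agent.TH188.ETP Pool.Agent.K3h25.ET

/-- the vector `i + 1` of `F_2^3`, in binary -/
def tv (i : Fin 7) : Fin 3 → ZMod 2 := fun j => (((i.1 + 1) / 2 ^ j.1 : ℕ) : ZMod 2)

/-- the standard scalar product -/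
def dot (t a : Fin 3 → ZMod 2) : ZMod 2 := t 0 * a 0 + t 1 * a 1 + t 2 * a 2

theorem dot_add (t a b : Fin 3 → ZMod 2) : dot t (a + b) = dot t a + dot t b := by
  simp only [dot, Pi.add_apply]; ring

theorem dot_smul (t a : Fin 3 → ZMod 2) (c : ZMod 2) : dot t (c • a) = c * dot t a := by
  simp only [dot, Pi.smul_apply, smul_eq_mul]; ring

theorem tv_basis : ∀ i : Fin 7, ∃ r : Fin 3 → ZMod 2, dot (tv i) r = 1 ∧
    ∃ p : Fin 3 → ZMod 2, dot (tv i) p = 0 ∧ ∃ q : Fin 3 → ZMod 2, dot (tv i) q = 0 ∧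
      ∀ a : Fin 3 → ZMod 2, ∃ α β γ : ZMod 2, a = α • p + β • q + γ • r := by
  decide +kernel

theorem tv_line : ∀ i j l : Fin 7, (i.1 + 1) ^^^ (j.1 + 1) = l.1 + 1 →
    ∀ a : Fin 3 → ZMod 2, dot (tv i) a + dot (tv j) a + dot (tv l) a = 0 := by
  decide +kernel

theorem tv_kill : ∀ a : Fin 3 → ZMod 2, a ≠ 0 → ∃ i j l : Fin 7,
    (i.1 + 1) ^^^ (j.1 + 1) = l.1 + 1 ∧ ∀ k : Fin 7, dot (tv k) a = 0 → k = i ∨ k = j ∨ k = l := by
  decide +kernel

theorem tv_two : ∀ k k' : Fin 7, k ≠ k' → ∃ a₀ : Fin 3 → ZMod 2, ∀ a : Fin 3 → ZMod 2,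
    dot (tv k) a = 0 → dot (tv k') a = 0 → a = 0 ∨ a = a₀ := by
  decide +kernel

section
variable {V : Type} [AddCommGroup V] [Module (ZMod 2) V] {e : V}

/-- the parametrisation of the span of three vectors -/
def par (x y z : V) : (Fin 3 → ZMod 2) →ₗ[ZMod 2] V where
  toFun a := a 0 • x + a 1 • y + a 2 • z
  map_add' a b := by
    simp only [Pi.add_apply, add_smul]; abel
  map_smul' c a := by
    simp only [Pi.smul_apply, smul_eq_mul, RingHom.id_apply, smul_add, mul_smul]

theorem par_mem (x y z : V) (a : Fin 3 → ZMod 2) :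
    par x y z a ∈ Submodule.span (ZMod 2) {x, y, z} :=
  Submodule.mem_span_triple.2 ⟨a 0, a 1, a 2, rfl⟩

theorem exists_par {x y z p : V} (hp : p ∈ Submodule.span (ZMod 2) {x, y, z}) :
    ∃ a, par x y z a = p := by
  obtain ⟨a, b, c, h⟩ := Submodule.mem_span_triple.1 hp
  exact ⟨![a, b, c], h⟩

/-- a section over the span is, modulo members, an elementary tensor with each functional -/
theorem exists_tensor {A : Fam V} (hL : Linked A) {x y z : V} {F : Frm V}
    (hF : Sec A (Submodule.span (ZMod 2) {x, y, z}) F) (i : Fin 7) :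
    ∃ f : Dl V, ∃ b ∈ A, ∀ a, F (par x y z a) + b (par x y z a) = dot (tv i) a • f := by
  obtain ⟨r, hr, p, hp, q, hq, h⟩ := tv_basis i
  obtain ⟨b, hb, h1, h2⟩ := line (LinkedOn.of hL ⊤) (p := par x y z p) (q := par x y z q)
    Submodule.mem_top Submodule.mem_top (hF _ (par_mem x y z p)) (hF _ (par_mem x y z q)) (by
      rw [← map_add F]; exact hF _ (Submodule.add_mem _ (par_mem x y z p) (par_mem x y z q)))
  refine ⟨F (par x y z r) + b (par x y z r), b, hb, fun a => ?_⟩
  obtain ⟨α, β, γ, rfl⟩ := h a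
  rw [dot_add, dot_add, dot_smul, dot_smul, dot_smul, hr, hp, hq, mul_zero, mul_zero, mul_one,
    zero_add, zero_add]
  simp only [map_add, map_smul, h1, h2]
  have : α • F (par x y z p) + β • F (par x y z q) + γ • F (par x y z r) +
      (α • F (par x y z p) + β • F (par x y z q) + γ • b (par x y z r)) =
      (α • F (par x y z p) + α • F (par x y z p)) + (β • F (par x y z q) + β • F (par x y z q)) +
        (γ • F (par x y z r) + γ • b (par x y z r)) := by abel
  rw [this, vadd, vadd, zero_add, zero_add, smul_add]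

/-- the vectors of the plane which are orthogonal to `v` -/
def orth (A : Fam V) (x y z v : V) : Submodule (ZMod 2) (Fin 3 → ZMod 2) where
  carrier := {a | ∀ ω ∈ A, ω v (par x y z a) = 0}
  add_mem' := by
    intro a b ha hb ω hω
    rw [map_add, map_add, ha ω hω, hb ω hω, add_zero]
  zero_mem' := by
    intro ω _
    rw [map_zero, map_zero]
  smul_mem' := by
    intro c a ha ω hω
    rw [map_smul, map_smul, ha ω hω, smul_zero]

theorem orth_dot {A : Fam V} (hA : EFam e A) {x y z : V} {F : Frm V}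
    (hF : Sec A (Submodule.span (ZMod 2) {x, y, z}) F) {i : Fin 7} {f : Dl V} {b : Frm V}
    (hb : b ∈ A) (h : ∀ a, F (par x y z a) + b (par x y z a) = dot (tv i) a • f) {v : V}
    (hv : f v ≠ 0) {a : Fin 3 → ZMod 2} (ha : a ∈ orth A x y z v) : dot (tv i) a = 0 := by
  obtain ⟨ω, hω, h1⟩ := hF _ (par_mem x y z a)
  have h2 : F (par x y z a) v = 0 := by
    rw [← h1, (hA ω hω).symm]
    exact ha ω hω
  have h3 : b (par x y z a) v = 0 := by
    rw [(hA b hb).symm]
    exact ha b hb
  have h4 := LinearMap.congr_fun (h a) v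
  rw [LinearMap.add_apply, h2, h3, add_zero, LinearMap.smul_apply, smul_eq_mul, z_ne hv,
    mul_one] at h4
  exact h4.symm

/-- the number of values at a vector outside `W` -/
theorem MaxSec.finrank_le [Finite V] {A : Fam V} (hA : EFam e A) (hL : Linked A)
    {W : Submodule (ZMod 2) V} {F : Frm V} (hM : MaxSec A W F) {x y z : V}
    (hW : Submodule.span (ZMod 2) {x, y, z} ≤ W) {v : V} (hv : v ∉ W) :
    4 ≤ finrank (ZMod 2) (orth A x y z v) + finrank (ZMod 2) (vals A v) := by
  obtain ⟨f₀, hf0, hf1, hf2⟩ := hM.exists_val hA hL hv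
  let L : (Fin 3 → ZMod 2) →ₗ[ZMod 2] (vals A v →ₗ[ZMod 2] ZMod 2) :=
    { toFun := fun a => (LinearMap.applyₗ (par x y z a)).comp (vals A v).subtype
      map_add' := fun a b => by ext f; simp
      map_smul' := fun c b => by ext f; simp }
  have hLa : ∀ a f, L a f = f.1 (par x y z a) := fun _ _ => rfl
  have hker : LinearMap.ker L = orth A x y z v := by
    ext a
    rw [LinearMap.mem_ker]
    constructor
    · intro h ω hω
      exact LinearMap.congr_fun h ⟨ω v, mem_vals.2 ⟨ω, hω, rfl⟩⟩
    · intro h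
      ext ⟨f, hf⟩
      obtain ⟨ω, hω, rfl⟩ := mem_vals.1 hf
      exact h ω hω
  have h1 := LinearMap.finrank_range_add_finrank_ker L
  rw [hker, Module.finrank_fin_fun] at h1
  have h2 : finrank (ZMod 2) (LinearMap.range L) <
      finrank (ZMod 2) (vals A v →ₗ[ZMod 2] ZMod 2) := by
    apply Submodule.finrank_lt
    intro hT
    obtain ⟨u, hu⟩ : ∃ u, f₀ u ≠ 0 := by
      by_contra hcon
      push Not at hcon
      exact hf0 (LinearMap.ext hcon)
    have h3 : (LinearMap.applyₗ u).comp (vals A v).subtype ∈ LinearMap.range L := by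
      rw [hT]; exact Submodule.mem_top
    obtain ⟨a, ha⟩ := h3
    have h4 := LinearMap.congr_fun ha ⟨f₀, mem_vals.2 hf1⟩
    rw [hLa] at h4
    have h5 : f₀ (par x y z a) = f₀ u := h4
    rw [hf2 _ (hW (par_mem x y z a))] at h5
    exact hu h5.symm
  rw [Subspace.dual_finrank_eq] at h2
  omega

/-- many vectors have many values -/
theorem count [Finite V] (hFano : StmFano) {A : Fam V} (hA : EFam e A) (hL : Linked A)
    (hC : Complete A) {x y z : V} (hfail : ¬ LG A (Submodule.span (ZMod 2) {x, y, z})) :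
    3 * Nat.card V ≤ 8 * {v : V | 4 ≤ finrank (ZMod 2) (vals A v)}.ncard ∧
      5 * Nat.card V ≤ 8 * {v : V | 3 ≤ finrank (ZMod 2) (vals A v)}.ncard := by
  classical
  set P := Submodule.span (ZMod 2) {x, y, z} with hP
  obtain ⟨F₀, hF₀, hn⟩ : ∃ F₀ : Frm V, Sec A P F₀ ∧ ∀ ω ∈ A, ∃ p ∈ P, ω p ≠ F₀ p := by
    unfold LG at hfail
    push Not at hfail
    exact hfail
  choose f b hb hfb using exists_tensor hL hF₀
  obtain ⟨W, F, hPW, hFP, hM⟩ := exists_max hC hF₀ hn
  have h1 : ∀ i, f i ≠ 0 := by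
    intro i hi
    obtain ⟨p, hp, h⟩ := hn (b i) (hb i)
    obtain ⟨a, rfl⟩ := exists_par hp
    have := hfb i a
    rw [hi, smul_zero] at this
    exact h (Pool.Agent.W622.ETC.add_eq_zero'.1 this).symm
  have h2 : ∀ i j l : Fin 7, Line i j l → ¬ (f i = f j ∧ f j = f l) := by
    rintro i j l hijl ⟨e1, e2⟩
    obtain ⟨p, hp, h⟩ := hn (b i + b j + b l) (A.add_mem (A.add_mem (hb i) (hb j)) (hb l))
    obtain ⟨a, rfl⟩ := exists_par hp
    apply h
    have k1 := hfb i a
    have k2 := hfb j a
    have k3 := hfb l a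
    rw [e1, e2] at k1
    rw [e2] at k2
    have k4 : (F₀ (par x y z a) + b i (par x y z a)) + (F₀ (par x y z a) + b j (par x y z a)) +
        (F₀ (par x y z a) + b l (par x y z a)) = 0 := by
      rw [k1, k2, k3, ← add_smul, ← add_smul, tv_line i j l hijl a, zero_smul]
    have k5 : (F₀ (par x y z a) + b i (par x y z a)) + (F₀ (par x y z a) + b j (par x y z a)) +
        (F₀ (par x y z a) + b l (par x y z a)) =
        ((b i + b j + b l) (par x y z a) + F₀ (par x y z a)) +
          (F₀ (par x y z a) + F₀ (par x y z a)) := by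
      rw [LinearMap.add_apply, LinearMap.add_apply]
      abel
    rw [k5, vadd, add_zero] at k4
    exact Pool.Agent.W622.ETC.add_eq_zero'.1 k4
  obtain ⟨c1, c2⟩ := hFano V f h1 h2
  have hcod := hM.codim hA hL
  have hWc : 8 * Nat.card W ≤ Nat.card V := by
    rw [Module.natCard_eq_pow_finrank (K := ZMod 2) (V := W),
      Module.natCard_eq_pow_finrank (K := ZMod 2) (V := V), Nat.card_zmod]
    calc 8 * 2 ^ finrank (ZMod 2) W = 2 ^ (finrank (ZMod 2) W + 3) := by rw [pow_add]; ring
      _ ≤ _ := Nat.pow_le_pow_right (by norm_num) hcod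
  -- the two coverings
  have cover : ∀ (N E : Set V), (∀ v, v ∉ W → v ∉ N → v ∈ E) →
      Nat.card V ≤ Nat.card W + N.ncard + E.ncard := by
    intro N E h
    have h3 : (Set.univ : Set V) ⊆ (W : Set V) ∪ N ∪ E := by
      intro v _
      by_cases hv : v ∈ W
      · exact Or.inl (Or.inl hv)
      · by_cases hv' : v ∈ N
        · exact Or.inl (Or.inr hv')
        · exact Or.inr (h v hv hv')
    have h4 := Set.ncard_le_ncard h3 (Set.toFinite _)
    rw [Set.ncard_univ] at h4
    have h5 := Set.ncard_union_le ((W : Set V) ∪ N) E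
    have h6 := Set.ncard_union_le (W : Set V) N
    have h7 : (W : Set V).ncard = Nat.card W := rfl
    omega
  constructor
  · have h3 := cover {v | ∃ i j l : Fin 7, Line i j l ∧ ∀ k, f k v ≠ 0 → k = i ∨ k = j ∨ k = l}
      {v : V | 4 ≤ finrank (ZMod 2) (vals A v)} (by
        intro v hv hvN
        have h4 := hM.finrank_le hA hL hPW hv
        have h5 : orth A x y z v = ⊥ := by
          rw [Submodule.eq_bot_iff]
          intro a ha
          by_contra ha0
          obtain ⟨i, j, l, hijl, h6⟩ := tv_kill a ha0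
          exact hvN ⟨i, j, l, hijl, fun k hk => h6 k (orth_dot hA hF₀ (hb k) (hfb k) hk ha)⟩
        rw [h5, finrank_bot, zero_add] at h4
        exact h4)
    have h4 : {v | ∃ i j l : Fin 7, Line i j l ∧ ∀ k, f k v ≠ 0 → k = i ∨ k = j ∨ k = l}.ncard =
        Nat.card {v : V // ∃ i j l : Fin 7, Line i j l ∧
          ∀ k, f k v ≠ 0 → k = i ∨ k = j ∨ k = l} := rfl
    omega
  · have h3 := cover {v | ∃ i : Fin 7, ∀ k, f k v ≠ 0 → k = i}
      {v : V | 3 ≤ finrank (ZMod 2) (vals A v)} (by
        intro v hv hvN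
        have h4 := hM.finrank_le hA hL hPW hv
        have h5 : finrank (ZMod 2) (orth A x y z v) ≤ 1 := by
          obtain ⟨k, k', hkk', hk, hk'⟩ : ∃ k k', k ≠ k' ∧ f k v ≠ 0 ∧ f k' v ≠ 0 := by
            by_contra hcon
            push Not at hcon
            apply hvN
            by_cases h6 : ∃ k, f k v ≠ 0
            · obtain ⟨k, hk⟩ := h6
              refine ⟨k, fun k' hk' => ?_⟩
              by_contra hne
              exact hk' (hcon k k' (fun h => hne h.symm) hk)
            · push Not at h6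
              exact ⟨0, fun k hk => absurd (h6 k) hk⟩
          obtain ⟨a₀, h6⟩ := tv_two k k' hkk'
          have h7 : orth A x y z v ≤ Submodule.span (ZMod 2) {a₀} := by
            intro a ha
            rcases h6 a (orth_dot hA hF₀ (hb k) (hfb k) hk ha)
              (orth_dot hA hF₀ (hb k') (hfb k') hk' ha) with rfl | rfl
            · exact Submodule.zero_mem _
            · exact Submodule.mem_span_singleton_self _
          exact (Submodule.finrank_mono h7).trans ((finrank_span_le_card _).trans (by simp))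
        show 3 ≤ finrank (ZMod 2) (vals A v)
        omega)
    have h4 : {v | ∃ i : Fin 7, ∀ k, f k v ≠ 0 → k = i}.ncard =
        Nat.card {v : V // ∃ i : Fin 7, ∀ k, f k v ≠ 0 → k = i} := rfl
    omega

end

end Pool.Agent.K3h25.ET2
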