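import Pool.Agent.K3h25.ET.Struct

/-! Complete families of forms: every linear map which is at each vector a value of a member is a
member. -/

set_option autoImplicit false

namespace Pool.Agent.K3h25.ET2

open Pool.Agent.H315R3.ETC Pool.Agent.W622.ETG Module Pool.Agent.TH188.ETP Pool.Agent.K3h25.ET
open Pool.Agent.TH188.ET (exists_char exists_factor)
open Pool.Agent.TH188.ET8 (QD_eq)

universe v

section
variable {V : Type} [AddCommGroup V] [Module (ZMod 2) V] {e : V}

/-- complete families -/
def Complete (A : Fam V) : Prop := ∀ F : Frm V, (∀ v, In A v (F v)) → F ∈ A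

/-- the completion of a family -/
def compl (A : Fam V) : Fam V where
  carrier := {F | ∀ v, In A v (F v)}
  add_mem' := fun {F G} hF hG v => (hF v).add (hG v)
  zero_mem' := fun v => In.zero A v
  smul_mem' := by
    intro c F hF v
    rcases z01 c with rfl | rfl
    · rw [zero_smul]; exact In.zero A v
    · rw [one_smul]; exact hF v

theorem mem_compl {A : Fam V} {F : Frm V} : F ∈ compl A ↔ ∀ v, In A v (F v) := Iff.rfl

theorem le_compl (A : Fam V) : A ≤ compl A := fun ω hω v => ⟨ω, hω, rfl⟩

theorem In_compl {A : Fam V} {v : V} {f : Dl V} : In (compl A) v f ↔ In A v f := by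
  constructor
  · rintro ⟨F, hF, rfl⟩
    exact hF v
  · rintro ⟨ω, hω, rfl⟩
    exact ⟨ω, le_compl A hω, rfl⟩

theorem complete_compl (A : Fam V) : Complete (compl A) :=
  fun _ hF v => In_compl.1 (hF v)

theorem linked_compl {A : Fam V} (hL : Linked A) : Linked (compl A) := by
  intro ω hω η hη a c hac
  obtain ⟨ζ, hζ, h1, h2⟩ := pairL hL a c (ω a) (hω a) (by rw [hac]; exact hη c)
  exact ⟨ζ, le_compl A hζ, h1, h2⟩

theorem efam_compl {A : Fam V} (hA : EFam e A) (hL : Linked A) : EFam e (compl A) := by
  intro F hF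
  constructor
  · intro a b
    obtain ⟨ω, hω, h1, h2⟩ := line (LinkedOn.of hL ⊤) (p := a) (q := b) Submodule.mem_top
      Submodule.mem_top (hF a) (hF b) (by rw [← map_add]; exact hF (a + b))
    rw [← h1, ← h2]
    exact (hA ω hω).symm a b
  · intro a
    obtain ⟨ω, hω, h1⟩ := hF a
    rw [← h1]
    exact (hA ω hω).sq a

theorem Complete.res {A : Fam V} (hA : Complete A) (X : DSub V) : Complete (res A X) := by
  intro F hF
  refine ⟨hA F fun v => ?_, fun v => ?_⟩
  · obtain ⟨ω, hω, h⟩ := hF v
    exact ⟨ω, hω.1, h⟩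
  · obtain ⟨ω, hω, h⟩ := hF v
    rw [← h]
    exact hω.2 v

/-- members of the completion respect equal symbols -/
theorem compl_eq [Finite V] {A : Fam V} (hA : EFam e A) (hL : Linked A) {a b c d : V}
    (h : ∀ ω ∈ A, ω a b = ω c d) {F : Frm V} (hF : F ∈ compl A) : F a b = F c d := by
  obtain ⟨-, hPL, -, -⟩ := Pool.Agent.W622.ETG.all_parts
  obtain ⟨z, h1, h2, h3⟩ := hPL V e A hA hL a c b d h
  have key : ∀ u v : V, (∀ ω ∈ A, ω u v = 0) → F u v = 0 := by
    intro u v huv
    obtain ⟨ω, hω, h⟩ := hF u
    rw [← h]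
    exact huv ω hω
  have k1 : F a (b + z) = 0 := key _ _ h1
  have k2 : F c (d + z) = 0 := key _ _ h2
  have k3 : F (a + c) z = 0 := key _ _ h3
  rw [map_add] at k1 k2
  rw [map_add, LinearMap.add_apply] at k3
  have e1 : F a b = F a z := CharTwo.add_eq_zero.1 k1
  have e2 : F c d = F c z := CharTwo.add_eq_zero.1 k2
  rw [e1, e2]
  exact CharTwo.add_eq_zero.1 k3

theorem linked_listC [Finite V] (C : Fam V → Prop)
    (hmono : ∀ (A : Fam V) (u : V), C A → C (res A (ann u)))
    (hC : ∀ A : Fam V, EFam e A → Linked A → C A → ∀ x y z : V, PlaneAt A x y z) (l : List V) :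
    ∀ A : Fam V, EFam e A → Linked A → C A →
      Linked (l.foldl (fun B u => res B (ann u)) A) := by
  induction l with
  | nil => intro A _ h _; exact h
  | cons u l ih =>
    intro A hA hL hS
    exact ih _ (hA.res _) (linked_ann hA hL (hC A hA hL hS) u) (hmono A u hS)

/-- a condition which is inherited by the families `A[ann u]` and implies plane linkage implies
hereditary linkage -/
theorem hered_ofC [Finite V] (C : Fam V → Prop)
    (hmono : ∀ (A : Fam V) (u : V), C A → C (res A (ann u)))
    (hC : ∀ A : Fam V, EFam e A → Linked A → C A → ∀ x y z : V, PlaneAt A x y z) {A : Fam V}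
    (hA : EFam e A) (hL : Linked A) (hCA : C A) : Hered A := by
  classical
  intro X
  have : Fintype V := Fintype.ofFinite V
  let l : List V := (Finset.univ.filter (fun b : V => ∀ g ∈ X, g b = 0)).toList
  have hl : ∀ b, b ∈ l ↔ ∀ g ∈ X, g b = 0 := by
    intro b
    simp [l]
  have h1 : l.foldl (fun B u => Pool.Agent.W622.ETG.res B (ann u)) A =
      Pool.Agent.W622.ETG.res A X := by
    ext ω
    rw [mem_list l A hA ω]
    constructor
    · rintro ⟨h1, h2⟩
      refine ⟨h1, fun y => mem_of_coann fun b hb => ?_⟩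
      rw [(hA ω h1).symm, h2 b ((hl b).2 hb)]
      rfl
    · rintro ⟨h1, h2⟩
      refine ⟨h1, fun u hu => ?_⟩
      ext y
      rw [(hA ω h1).symm]
      exact (hl u).1 hu _ (h2 y)
  rw [← h1]
  exact linked_listC C hmono hC l A hA hL hCA

end

/-- quaternionic structures with values in a group come from complete linked families -/
theorem elem_of_compl (S : QData) (hS : IsQuat S) (hfin : Finite S.G) {B : Type v}
    [AddCommGroup B] (hB : ∀ b : B, b + b = 0) (β : S.G → S.G → B)
    (hmul : ∀ a b c, β a (b * c) = β a b + β a c)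
    (hiff : ∀ a b c d, β a b = β c d ↔ S.q a b = S.q c d)
    (H : ∀ (_ : Module (ZMod 2) (Additive S.G)) (A : Fam (Additive S.G)),
      EFam (Additive.ofMul S.neg) A → Linked A → Complete A →
      (∀ a b c d : S.G, S.q a b = S.q c d → ∀ ω ∈ A,
        ω (Additive.ofMul a) (Additive.ofMul b) = ω (Additive.ofMul c) (Additive.ofMul d)) →
      Hered A) : Elem S := by
  classical
  obtain ⟨hcore, hPL, hout, hconv⟩ := Pool.Agent.W622.ETG.all_parts
  let _ : Module (ZMod 2) (Additive S.G) := AddCommGroup.zmodModule (n := 2) (by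
    intro x
    rw [two_smul]
    exact hS.exp2 x.toMul)
  have hfV : Finite (Additive S.G) := hfin
  have q1 : ∀ a, S.q a 1 = S.zero := by
    intro a
    have := (hS.qs3 a 1 1).1 rfl
    rwa [mul_one] at this
  have b1 : ∀ a, β a 1 = 0 := by
    intro a
    have := hmul a 1 1
    rw [mul_one] at this
    exact left_eq_add.1 this
  have hz : ∀ a b, β a b = 0 ↔ S.q a b = S.zero := by
    intro a b
    rw [← b1 a, ← q1 a, hiff]
  have hsym : ∀ a b, β a b = β b a := fun a b => (hiff _ _ _ _).2 (hS.qs2 a b)
  have hmul' : ∀ a b c, β (a * b) c = β a c + β b c := by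
    intro a b c
    rw [hsym, hmul, hsym c, hsym c]
  -- the form of a character
  let frm (l : B →+ ZMod 2) : Frm (Additive S.G) :=
    AddMonoidHom.toZModLinearMap 2
      { toFun := fun a => AddMonoidHom.toZModLinearMap 2
          { toFun := fun b => l (β a.toMul b.toMul)
            map_zero' := by
              show l (β a.toMul 1) = 0
              rw [b1, map_zero]
            map_add' := fun b c => by
              show l (β a.toMul (b.toMul * c.toMul)) = _
              rw [hmul, map_add] }
        map_zero' := by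
          ext b
          show l (β 1 b.toMul) = 0
          rw [hsym, b1, map_zero]
        map_add' := fun a a' => by
          ext b
          show l (β (a.toMul * a'.toMul) b.toMul) = l _ + l _
          rw [hmul', map_add] }
  have hfrm : ∀ l a b, frm l a b = l (β a.toMul b.toMul) := fun _ _ _ => rfl
  let A : Fam (Additive S.G) :=
    { carrier := {ω | ∃ l : B →+ ZMod 2, ω = frm l}
      add_mem' := by
        rintro _ _ ⟨l, rfl⟩ ⟨l', rfl⟩
        exact ⟨l + l', by ext a b; rfl⟩
      zero_mem' := ⟨0, by ext a b; rfl⟩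
      smul_mem' := by
        rintro c _ ⟨l, rfl⟩
        refine ⟨c.val • l, ?_⟩
        ext a b
        rw [LinearMap.smul_apply, LinearMap.smul_apply, hfrm, hfrm, AddMonoidHom.nsmul_apply]
        simp }
  set e : Additive S.G := Additive.ofMul S.neg with he
  have hEF : EFam e A := by
    rintro ω ⟨l, rfl⟩
    constructor
    · intro a b
      rw [hfrm, hfrm, hsym]
    · intro a
      have h1 : β a.toMul (S.neg * a.toMul) = 0 := (hz _ _).2 (hS.qs1 a.toMul)
      rw [hmul] at h1
      have h2 : β a.toMul a.toMul = β a.toMul S.neg := by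
        have h3 := hB (β a.toMul S.neg)
        rw [← h3] at h1
        exact add_left_cancel h1
      rw [hfrm, hfrm, h2]
      rfl
  -- linkage by gluing
  have hL : Linked A := by
    rintro ω ⟨l, rfl⟩ η ⟨m, rfl⟩ a c hac
    have hac' : ∀ b, l (β a.toMul b) = m (β c.toMul b) := by
      intro b
      have := LinearMap.congr_fun hac (Additive.ofMul b)
      rwa [hfrm, hfrm] at this
    let Φ : Additive S.G × Additive S.G →+ B :=
      AddMonoidHom.mk' (fun z => β a.toMul z.1.toMul + β c.toMul z.2.toMul) (by
        intro z z'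
        simp only [Prod.fst_add, Prod.snd_add, toMul_add, hmul]
        abel)
    let Λ : Additive S.G × Additive S.G →+ ZMod 2 :=
      AddMonoidHom.mk' (fun z => l (β a.toMul z.1.toMul) + m (β c.toMul z.2.toMul)) (by
        intro z z'
        simp only [Prod.fst_add, Prod.snd_add, toMul_add, hmul, map_add]
        abel)
    obtain ⟨k, hk⟩ := exists_factor hB Φ Λ (by
      rintro ⟨b, d⟩ h
      have h1 : β a.toMul b.toMul + β c.toMul d.toMul = 0 := h
      have h2 : β a.toMul b.toMul = β c.toMul d.toMul := by
        have h3 := hB (β c.toMul d.toMul)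
        rw [← h3] at h1
        exact add_right_cancel h1
      obtain ⟨x, hx1, hx2⟩ := hS.qs4 _ _ _ _ ((hiff _ _ _ _).1 h2)
      have e1 := (hiff _ _ _ _).2 hx1
      have e2 := (hiff _ _ _ _).2 hx2
      show l (β a.toMul b.toMul) + m (β c.toMul d.toMul) = 0
      rw [e1, e2, hac']
      exact CharTwo.add_self_eq_zero _)
    refine ⟨frm k, ⟨k, rfl⟩, ?_, ?_⟩
    · ext b
      rw [hfrm, hfrm]
      have := hk (b, 0)
      have h1 : Φ (b, 0) = β a.toMul b.toMul := by
        show β a.toMul b.toMul + β c.toMul 1 = _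
        rw [b1, add_zero]
      have h2 : Λ (b, 0) = l (β a.toMul b.toMul) := by
        show l (β a.toMul b.toMul) + m (β c.toMul 1) = _
        rw [b1, map_zero, add_zero]
      rw [h1, h2] at this
      exact this
    · ext b
      rw [hfrm, hfrm]
      have := hk (0, b)
      have h1 : Φ (0, b) = β c.toMul b.toMul := by
        show β a.toMul 1 + β c.toMul b.toMul = _
        rw [b1, zero_add]
      have h2 : Λ (0, b) = m (β c.toMul b.toMul) := by
        show l (β a.toMul 1) + m (β c.toMul b.toMul) = _
        rw [b1, map_zero, zero_add]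
      rw [h1, h2] at this
      rw [this]
      exact (hac' _).symm
  have hAeq : ∀ a b c d : S.G, S.q a b = S.q c d → ∀ ω ∈ A,
      ω (Additive.ofMul a) (Additive.ofMul b) = ω (Additive.ofMul c) (Additive.ofMul d) := by
    rintro a b c d h ω ⟨l, rfl⟩
    rw [hfrm, hfrm]
    congr 1
    exact (hiff _ _ _ _).2 h
  have hCeq : ∀ a b c d : S.G, S.q a b = S.q c d → ∀ ω ∈ compl A,
      ω (Additive.ofMul a) (Additive.ofMul b) = ω (Additive.ofMul c) (Additive.ofMul d) :=
    fun a b c d h ω hω => compl_eq hEF hL (hAeq a b c d h) hω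
  have hEC := efam_compl hEF hL
  have hher : Hered (compl A) :=
    H _ (compl A) hEC (linked_compl hL) (complete_compl A) hCeq
  have hElem : Elem (QD e (compl A)) := hout _ _ _ (hcore _ _ _ hEC hher)
  refine Elem.iso _ _ hElem ⟨MulEquiv.multiplicativeAdditive S.G, rfl, ?_⟩
  intro a b c d
  rw [QD_eq]
  constructor
  · intro h
    show S.q a.toAdd.toMul b.toAdd.toMul = S.q c.toAdd.toMul d.toAdd.toMul
    rw [← hiff]
    by_contra hne
    obtain ⟨l, -, hl⟩ := exists_char (⊥ : AddSubgroup B) (fun x => by
      rw [AddSubgroup.mem_bot]; exact hB x)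
      (β a.toAdd.toMul b.toAdd.toMul - β c.toAdd.toMul d.toAdd.toMul) (by
        rw [AddSubgroup.mem_bot, sub_eq_zero]; exact hne)
    apply hl
    rw [map_sub, sub_eq_zero]
    exact h (frm l) (le_compl A ⟨l, rfl⟩)
  · intro h ω hω
    exact hCeq _ _ _ _ h ω hω

end Pool.Agent.K3h25.ET2
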