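import Mathlib

set_option autoImplicit false

/-! Enumeration of the subspaces of `F_2^7` in echelon form. Words are natural numbers below 128. -/

namespace Pool.Agent.K3h25.ET2

/-- masks of the lines -/
def lineMasks : List ℕ := [7, 25, 97, 42, 82, 76, 52]

/-- number of elements `x` of the list such that bit `x` of `M` is one -/
def cnt (M : ℕ) : List ℕ → ℕ
  | [] => 0
  | x :: L => Nat.add (Nat.land (Nat.shiftRight M x) 1) (cnt M L)

/-- all elements satisfy `p` -/
def alls (p : ℕ → Bool) : List ℕ → Bool
  | [] => true
  | x :: L => and (p x) (alls p L)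

/-- some element satisfies `p` -/
def anys (p : ℕ → Bool) : List ℕ → Bool
  | [] => false
  | x :: L => or (p x) (anys p L)

/-- some bit is zero in all words, or all words are constant on some line -/
def viol (L : List ℕ) : Bool :=
  or (anys (fun m => alls (fun x => Nat.beq (Nat.land x m) 0) L) [1, 2, 4, 8, 16, 32, 64])
    (anys (fun m => alls (fun x => or (Nat.beq (Nat.land x m) 0) (Nat.beq (Nat.land x m) m)) L)
      lineMasks)

/-- bit `x` is one if the word `x` is contained in a line -/
def NS : ℕ := 237690612876401199076792014847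

/-- bit `x` is one if the word `x` has weight at most one -/
def SM : ℕ := 18446744078004584727

/-- the check for one subspace -/
def leaf (L : List ℕ) (k : ℕ) : Bool :=
  or (and (Nat.ble (Nat.mul 2 (cnt NS L)) (Nat.pow 2 k))
    (Nat.ble (Nat.mul 4 (cnt SM L)) (Nat.pow 2 k))) (viol L)

/-- `a` is added to all elements of the first list, and the second is appended -/
def mapx (a : ℕ) : List ℕ → List ℕ → List ℕ
  | [], M => M
  | x :: L, M => Nat.xor a x :: mapx a L M

/-- the numbers from `a` to `a + n - 1` -/
def upto (a : ℕ) : ℕ → List ℕ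
  | 0 => []
  | n + 1 => Nat.add a n :: upto a n

/-- the enumeration -/
def go : ℕ → ℕ → List ℕ → ℕ → ℕ → Bool
  | 0, _, L, _, k => leaf L k
  | j + 1, i, L, pv, k => and (go j (Nat.succ i) L pv k)
      (alls (fun a => or (Bool.not (Nat.beq (Nat.land a pv) 0))
        (go j (Nat.succ i) (mapx a L L) (Nat.add pv (Nat.pow 2 i)) (Nat.succ k)))
        (upto (Nat.pow 2 i) (Nat.pow 2 i)))

theorem go_true : go 7 0 [0] 0 0 = true := by decide +kernel

end Pool.Agent.K3h25.ET2
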