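import Pool.Agent.K3h25.ET2.StmFano
import Pool.Agent.K3h25.ET2.FanoChk

set_option autoImplicit false

/-! Supports of the words of a subspace of `F_2^7`: soundness of the enumeration. -/

namespace Pool.Agent.K3h25.ET2

/-- subspaces of `F_2^7` -/
structure Cl (S : ℕ → Prop) : Prop where
  zero : S 0
  xor : ∀ x y, S x → S y → S (x ^^^ y)
  lt : ∀ x, S x → x < 128

/-- the invariant of the enumeration -/
structure Inv (S : ℕ → Prop) (i : ℕ) (L : List ℕ) (pv k : ℕ) : Prop where
  nodup : L.Nodup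
  mem : ∀ x, x ∈ L ↔ S x ∧ x < 2 ^ i
  len : L.length = 2 ^ k
  pvlt : pv < 2 ^ i
  piv : ∀ j, pv.testBit j = true → ∃ c, S c ∧ 2 ^ j ≤ c ∧ c < 2 ^ (j + 1)

theorem alls_iff {p : ℕ → Bool} : ∀ {L : List ℕ}, alls p L = true ↔ ∀ x ∈ L, p x = true
  | [] => by simp [alls]
  | y :: L => by
    show and (p y) (alls p L) = true ↔ _
    rw [Bool.and_eq_true, alls_iff (L := L), List.forall_mem_cons]

theorem anys_iff {p : ℕ → Bool} : ∀ {L : List ℕ}, anys p L = true ↔ ∃ x ∈ L, p x = true
  | [] => by simp [anys]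
  | y :: L => by
    show or (p y) (anys p L) = true ↔ _
    rw [Bool.or_eq_true, anys_iff (L := L)]
    simp only [List.mem_cons, exists_eq_or_imp]

theorem mem_upto {a x : ℕ} : ∀ {n : ℕ}, x ∈ upto a n ↔ a ≤ x ∧ x < a + n
  | 0 => by simp [upto]
  | n + 1 => by
    show x ∈ (a + n) :: upto a n ↔ _
    rw [List.mem_cons, mem_upto (n := n)]
    omega

theorem mem_mapx {a x : ℕ} : ∀ {L M : List ℕ}, x ∈ mapx a L M ↔ (∃ y ∈ L, x = a ^^^ y) ∨ x ∈ M
  | [], M => by simp [mapx]
  | y :: L, M => by
    show x ∈ (a ^^^ y) :: mapx a L M ↔ _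
    rw [List.mem_cons, mem_mapx (L := L)]
    simp only [List.mem_cons, exists_eq_or_imp, or_assoc]

theorem length_mapx {a : ℕ} : ∀ {L M : List ℕ}, (mapx a L M).length = L.length + M.length
  | [], M => by simp [mapx]
  | y :: L, M => by
    show ((a ^^^ y) :: mapx a L M).length = _
    rw [List.length_cons, length_mapx (L := L), List.length_cons]
    omega

theorem xor_inj {a x y : ℕ} (h : a ^^^ x = a ^^^ y) : x = y := by
  have := congrArg (fun t => a ^^^ t) h
  simpa [← Nat.xor_assoc] using this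

theorem nodup_mapx {a : ℕ} : ∀ {L M : List ℕ}, L.Nodup → M.Nodup → (∀ y ∈ L, a ^^^ y ∉ M) →
    (mapx a L M).Nodup
  | [], M, _, hM, _ => hM
  | y :: L, M, hL, hM, h => by
    show ((a ^^^ y) :: mapx a L M).Nodup
    rw [List.nodup_cons] at hL ⊢
    refine ⟨fun hm => ?_, nodup_mapx hL.2 hM fun z hz => h z (List.mem_cons_of_mem _ hz)⟩
    rcases mem_mapx.1 hm with ⟨z, hz, hz'⟩ | hm
    · rw [xor_inj hz'] at hL
      exact hL.1 hz
    · exact h y List.mem_cons_self hm

theorem testBit_top {x i : ℕ} (h1 : 2 ^ i ≤ x) (h2 : x < 2 ^ (i + 1)) : x.testBit i = true :=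
  Nat.testBit_of_two_pow_le_and_two_pow_add_one_gt h1 h2

theorem xor_lt_of_top {a x i : ℕ} (ha : 2 ^ i ≤ a) (ha' : a < 2 ^ (i + 1)) (hx : 2 ^ i ≤ x)
    (hx' : x < 2 ^ (i + 1)) : a ^^^ x < 2 ^ i := by
  refine Nat.lt_pow_two_of_testBit _ fun j hj => ?_
  rw [Nat.testBit_xor]
  rcases Nat.eq_or_lt_of_le hj with rfl | hj
  · rw [testBit_top ha ha', testBit_top hx hx']
    rfl
  · have h1 : (2 : ℕ) ^ (i + 1) ≤ 2 ^ j := Nat.pow_le_pow_right (by norm_num) hj
    rw [Nat.testBit_lt_two_pow (ha'.trans_le h1), Nat.testBit_lt_two_pow (hx'.trans_le h1)]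
    rfl

theorem xor_ge_of_low {a x i : ℕ} (ha : 2 ^ i ≤ a) (ha' : a < 2 ^ (i + 1)) (hx : x < 2 ^ i) :
    2 ^ i ≤ a ^^^ x ∧ a ^^^ x < 2 ^ (i + 1) := by
  constructor
  · apply Nat.ge_two_pow_of_testBit
    rw [Nat.testBit_xor, testBit_top ha ha', Nat.testBit_lt_two_pow hx]
    rfl
  · exact Nat.xor_lt_two_pow ha' (hx.trans (Nat.pow_lt_pow_right (by norm_num) (by omega)))

theorem go_sound {S : ℕ → Prop} (hS : Cl S) : ∀ (j i : ℕ) (L : List ℕ) (pv k : ℕ), i + j = 7 →
    Inv S i L pv k → go j i L pv k = true → ∃ (L' : List ℕ) (k' : ℕ), L'.Nodup ∧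
      (∀ x, x ∈ L' ↔ S x) ∧ L'.length = 2 ^ k' ∧ leaf L' k' = true := by
  classical
  intro j
  induction j with
  | zero =>
    intro i L pv k hi hI hgo
    obtain rfl : i = 7 := hi
    refine ⟨L, k, hI.nodup, fun x => ?_, hI.len, hgo⟩
    rw [hI.mem]
    exact ⟨fun h => h.1, fun h => ⟨h, hS.lt x h⟩⟩
  | succ j ih =>
    intro i L pv k hi hI hgo
    have hgo' : and (go j (i + 1) L pv k)
      (alls (fun a => or (Bool.not (Nat.beq (Nat.land a pv) 0))
        (go j (i + 1) (mapx a L L) (pv + 2 ^ i) (k + 1)))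
        (upto (2 ^ i) (2 ^ i))) = true := hgo
    rw [Bool.and_eq_true, alls_iff] at hgo'
    obtain ⟨g1, g2⟩ := hgo'
    by_cases h : ∃ x, S x ∧ 2 ^ i ≤ x ∧ x < 2 ^ (i + 1)
    · obtain ⟨ha1, ha2, ha3⟩ := Nat.find_spec h
      have hmin : ∀ x, S x → 2 ^ i ≤ x → x < 2 ^ (i + 1) → Nat.find h ≤ x := fun x h1 h2 h3 =>
        Nat.find_min' h ⟨h1, h2, h3⟩
      set a := Nat.find h with ha
      have hland : Nat.land a pv = 0 := by
        show a &&& pv = 0
        apply Nat.eq_of_testBit_eq
        intro t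
        rw [Nat.testBit_and, Nat.zero_testBit]
        by_contra hne
        have h1 : a.testBit t = true ∧ pv.testBit t = true := by
          rw [← Bool.and_eq_true]
          simpa using hne
        obtain ⟨h1, h2⟩ := h1
        obtain ⟨c, hc1, hc2, hc3⟩ := hI.piv t h2
        have hti : t < i := by
          by_contra hti
          have : pv.testBit t = false := Nat.testBit_lt_two_pow
            (hI.pvlt.trans_le (Nat.pow_le_pow_right (by norm_num) (by omega)))
          rw [this] at h2
          exact absurd h2 (by decide)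
        have hci : c < 2 ^ i := hc3.trans_le (Nat.pow_le_pow_right (by norm_num) hti)
        obtain ⟨k1, k2⟩ := xor_ge_of_low ha2 ha3 hci
        have k3 := hmin _ (hS.xor a c ha1 hc1) k1 k2
        have k4 : a ^^^ c < a := by
          refine Nat.lt_of_testBit t ?_ h1 ?_
          · rw [Nat.testBit_xor, h1, testBit_top hc2 hc3]
            rfl
          · intro u hu
            rw [Nat.testBit_xor, Nat.testBit_lt_two_pow
              (hc3.trans_le (Nat.pow_le_pow_right (by norm_num) hu)), Bool.xor_false]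
        omega
      have g3 := g2 a (mem_upto.2 ⟨ha2, by rw [pow_succ] at ha3; omega⟩)
      rw [hland] at g3
      have g4 : go j (i + 1) (mapx a L L) (pv + 2 ^ i) (k + 1) = true := g3
      refine ih (i + 1) _ _ _ (by omega) ?_ g4
      refine ⟨nodup_mapx hI.nodup hI.nodup ?_, ?_, ?_, ?_, ?_⟩
      · intro y hy hm
        have h1 := (xor_ge_of_low ha2 ha3 ((hI.mem y).1 hy).2).1
        have h2 := ((hI.mem _).1 hm).2
        omega
      · intro x
        rw [mem_mapx]
        constructor
        · rintro (⟨y, hy, rfl⟩ | hx)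
          · obtain ⟨h1, h2⟩ := (hI.mem y).1 hy
            exact ⟨hS.xor a y ha1 h1, (xor_ge_of_low ha2 ha3 h2).2⟩
          · obtain ⟨h1, h2⟩ := (hI.mem x).1 hx
            exact ⟨h1, h2.trans (Nat.pow_lt_pow_right (by norm_num) (by omega))⟩
        · rintro ⟨h1, h2⟩
          by_cases hx : x < 2 ^ i
          · exact Or.inr ((hI.mem x).2 ⟨h1, hx⟩)
          · refine Or.inl ⟨a ^^^ x, (hI.mem _).2 ⟨hS.xor a x ha1 h1, ?_⟩, ?_⟩
            · exact xor_lt_of_top ha2 ha3 (by omega) h2
            · rw [← Nat.xor_assoc, Nat.xor_self, Nat.zero_xor]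
      · rw [length_mapx, hI.len, pow_succ]; ring
      · have := hI.pvlt
        rw [pow_succ]
        omega
      · intro t ht
        by_cases hti : t = i
        · exact ⟨a, ha1, by rw [hti]; exact ha2, by rw [hti]; exact ha3⟩
        · apply hI.piv
          rw [← Nat.or_two_pow_eq_add_of_lt hI.pvlt, Nat.testBit_or, Nat.testBit_two_pow_of_ne
            (fun h => hti h.symm), Bool.or_false] at ht
          exact ht
    · refine ih (i + 1) L pv k (by omega) ⟨hI.nodup, fun x => ?_, hI.len, ?_, hI.piv⟩ g1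
      · rw [hI.mem]
        constructor
        · rintro ⟨h1, h2⟩
          exact ⟨h1, h2.trans (Nat.pow_lt_pow_right (by norm_num) (by omega))⟩
        · rintro ⟨h1, h2⟩
          refine ⟨h1, ?_⟩
          by_contra h3
          exact h ⟨x, h1, by omega, h2⟩
      · exact hI.pvlt.trans (Nat.pow_lt_pow_right (by norm_num) (by omega))

theorem cnt_eq (M : ℕ) : ∀ L : List ℕ, cnt M L = (L.filter fun x => M.testBit x).length
  | [] => rfl
  | x :: L => by
    show Nat.land (Nat.shiftRight M x) 1 + cnt M L = _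
    rw [cnt_eq M L, List.filter_cons]
    have h1 : Nat.land (Nat.shiftRight M x) 1 = (M >>> x) &&& 1 := rfl
    rw [h1, Nat.and_one_is_mod, Nat.shiftRight_eq_div_pow]
    rw [Nat.testBit_eq_decide_div_mod_eq]
    rcases Nat.mod_two_eq_zero_or_one (M / 2 ^ x) with h | h
    · rw [h]
      simp
    · rw [h]
      simp [Nat.add_comm]

theorem mask_bit : ∀ m ∈ [1, 2, 4, 8, 16, 32, 64], ∃ i : Fin 7, m = 2 ^ i.1 := by decide

theorem mask_line : ∀ m ∈ lineMasks, ∃ i j l : Fin 7, (i.1 + 1) ^^^ (j.1 + 1) = l.1 + 1 ∧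
    m.testBit i.1 = true ∧ m.testBit j.1 = true ∧ m.testBit l.1 = true := by decide +kernel

theorem ns_spec : ∀ i j l : Fin 7, (i.1 + 1) ^^^ (j.1 + 1) = l.1 + 1 → ∀ x : Fin 128,
    (∀ k : Fin 7, x.1.testBit k.1 = true → k = i ∨ k = j ∨ k = l) →
    NS.testBit x.1 = true := by decide +kernel

theorem sm_spec : ∀ i : Fin 7, ∀ x : Fin 128, (∀ k : Fin 7, x.1.testBit k.1 = true → k = i) →
    SM.testBit x.1 = true := by decide +kernel

theorem stmFano : StmFano := by
  classical
  intro V _ _ _ f h1 h2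
  have : Fintype V := Fintype.ofFinite V
  have zz : ∀ x : ZMod 2, x = 0 ∨ x = 1 := by decide
  let w : V → ℕ := fun v => Nat.ofBits (fun i : Fin 7 => decide (f i v = 1))
  have hw : ∀ v (i : Fin 7), (w v).testBit i.1 = decide (f i v = 1) := fun v i =>
    Nat.testBit_ofBits_lt _ i.1 i.2
  have hw' : ∀ v (i : ℕ), 7 ≤ i → (w v).testBit i = false := fun v i hi =>
    Nat.testBit_ofBits_ge _ i hi
  have hwlt : ∀ v, w v < 128 := by
    intro v
    have : w v < 2 ^ 7 := Nat.lt_pow_two_of_testBit _ fun i hi => hw' v i hi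
    exact this
  have hwadd : ∀ u v, w (u + v) = w u ^^^ w v := by
    intro u v
    apply Nat.eq_of_testBit_eq
    intro i
    rw [Nat.testBit_xor]
    by_cases hi : i < 7
    · have e1 := hw (u + v) ⟨i, hi⟩
      have e2 := hw u ⟨i, hi⟩
      have e3 := hw v ⟨i, hi⟩
      simp only at e1 e2 e3
      rw [e1, e2, e3, map_add]
      rcases zz (f ⟨i, hi⟩ u) with h | h <;> rcases zz (f ⟨i, hi⟩ v) with h' | h' <;>
        rw [h, h'] <;> decide
    · rw [hw' _ i (by omega), hw' _ i (by omega), hw' _ i (by omega)]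
      rfl
  have hw0 : w 0 = 0 := by
    have := hwadd 0 0
    rw [add_zero, Nat.xor_self] at this
    exact this
  have vadd : ∀ v : V, v + v = 0 := by
    intro v
    have : (2 : ZMod 2) • v = 0 := by
      rw [show (2 : ZMod 2) = 0 from rfl, zero_smul]
    rwa [two_smul] at this
  have hS : Cl (fun x => ∃ v, w v = x) := by
    refine ⟨⟨0, hw0⟩, ?_, ?_⟩
    · rintro _ _ ⟨u, rfl⟩ ⟨v, rfl⟩
      exact ⟨u + v, hwadd u v⟩
    · rintro _ ⟨v, rfl⟩
      exact hwlt v
  obtain ⟨L, k, hnd, hmem, hlen, hleaf⟩ := go_sound hS 7 0 [0] 0 0 rfl (by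
    refine ⟨List.nodup_singleton 0, fun x => ?_, rfl, by norm_num, fun j hj => ?_⟩
    · rw [List.mem_singleton]
      constructor
      · rintro rfl
        exact ⟨⟨0, hw0⟩, by norm_num⟩
      · rintro ⟨-, h⟩
        simpa using h
    · rw [Nat.zero_testBit] at hj
      exact absurd hj (by decide)) go_true
  -- the fibres
  set u := (Finset.univ.filter fun v => w v = 0).card with hu
  have hfib : ∀ x ∈ L, (Finset.univ.filter fun v => w v = x).card = u := by
    intro x hx
    obtain ⟨v₀, hv₀⟩ := (hmem x).1 hx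
    refine Finset.card_bij' (fun v _ => v + v₀) (fun v _ => v + v₀) ?_ ?_ ?_ ?_
    · intro v hv
      rw [Finset.mem_filter] at hv ⊢
      refine ⟨Finset.mem_univ _, ?_⟩
      rw [hwadd, hv.2, hv₀, Nat.xor_self]
    · intro v hv
      rw [Finset.mem_filter] at hv ⊢
      refine ⟨Finset.mem_univ _, ?_⟩
      rw [hwadd, hv.2, hv₀, Nat.zero_xor]
    · intro v _
      show v + v₀ + v₀ = v
      rw [add_assoc, vadd, add_zero]
    · intro v _
      show v + v₀ + v₀ = v
      rw [add_assoc, vadd, add_zero]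
  have hcount : ∀ p : ℕ → Bool, (Finset.univ.filter fun v => p (w v) = true).card =
      (L.filter p).length * u := by
    intro p
    have e1 : (L.filter p).length = (L.filter p).toFinset.card :=
      (List.toFinset_card_of_nodup (hnd.filter _)).symm
    rw [e1, Finset.card_eq_sum_card_fiberwise (f := w) (t := (L.filter p).toFinset)]
    · rw [Finset.sum_const_nat (m := u)]
      intro x hx
      rw [List.mem_toFinset, List.mem_filter] at hx
      rw [← hfib x hx.1, Finset.filter_filter]
      congr 1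
      ext v
      simp only [Finset.mem_filter, Finset.mem_univ, true_and]
      constructor
      · exact fun h => h.2
      · exact fun h => ⟨by rw [h]; exact hx.2, h⟩
    · intro v hv
      have hv' := (Finset.mem_filter.1 (Finset.mem_coe.1 hv)).2
      rw [Finset.mem_coe, List.mem_toFinset, List.mem_filter]
      exact ⟨(hmem _).2 ⟨v, rfl⟩, hv'⟩
  have hV : Nat.card V = 2 ^ k * u := by
    have := hcount (fun _ => true)
    rw [Finset.filter_true_of_mem (fun _ _ => rfl), Finset.card_univ, List.filter_true, hlen]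
      at this
    rw [Nat.card_eq_fintype_card, this]
  have hle : ∀ (P : V → Prop) (p : ℕ → Bool), (∀ v, P v → p (w v) = true) →
      Nat.card {v // P v} ≤ (L.filter p).length * u := by
    intro P p hP
    rw [← hcount p, Nat.card_eq_fintype_card, Fintype.card_subtype]
    refine Finset.card_le_card fun v hv => ?_
    rw [Finset.mem_filter] at hv ⊢
    exact ⟨Finset.mem_univ _, hP v hv.2⟩
  have hleaf' : or (and (Nat.ble (2 * cnt NS L) (2 ^ k)) (Nat.ble (4 * cnt SM L) (2 ^ k)))
    (viol L) = true := hleaf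
  rw [Bool.or_eq_true, Bool.and_eq_true] at hleaf'
  rcases hleaf' with ⟨l1, l2⟩ | hviol
  · have l1' : 2 * cnt NS L ≤ 2 ^ k := Nat.le_of_ble_eq_true l1
    have l2' : 4 * cnt SM L ≤ 2 ^ k := Nat.le_of_ble_eq_true l2
    rw [cnt_eq] at l1' l2'
    have bit : ∀ v (k : Fin 7), (w v).testBit k.1 = true → f k v ≠ 0 := by
      intro v k hk h0
      rw [hw, h0] at hk
      exact absurd hk (by decide)
    constructor
    · have := hle (fun v => ∃ i j l : Fin 7, Line i j l ∧
        ∀ k, f k v ≠ 0 → k = i ∨ k = j ∨ k = l) (fun x => NS.testBit x) (by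
          rintro v ⟨i, j, l, hl, h⟩
          exact ns_spec i j l hl ⟨w v, hwlt v⟩ fun k hk => h k (bit v k hk))
      rw [hV]
      calc _ ≤ 2 * ((L.filter fun x => NS.testBit x).length * u) := Nat.mul_le_mul_left _ this
        _ = 2 * (L.filter fun x => NS.testBit x).length * u := by ring
        _ ≤ _ := Nat.mul_le_mul_right _ l1'
    · have := hle (fun v => ∃ i : Fin 7, ∀ k, f k v ≠ 0 → k = i) (fun x => SM.testBit x) (by
          rintro v ⟨i, h⟩
          exact sm_spec i ⟨w v, hwlt v⟩ fun k hk => h k (bit v k hk))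
      rw [hV]
      calc _ ≤ 4 * ((L.filter fun x => SM.testBit x).length * u) := Nat.mul_le_mul_left _ this
        _ = 4 * (L.filter fun x => SM.testBit x).length * u := by ring
        _ ≤ _ := Nat.mul_le_mul_right _ l2'
  · exfalso
    have hviol' : or (anys (fun m => alls (fun x => Nat.beq (Nat.land x m) 0) L)
        [1, 2, 4, 8, 16, 32, 64])
      (anys (fun m => alls (fun x => or (Nat.beq (Nat.land x m) 0) (Nat.beq (Nat.land x m) m)) L)
        lineMasks) = true := hviol
    rw [Bool.or_eq_true, anys_iff, anys_iff] at hviol'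
    rcases hviol' with ⟨m, hm, ha⟩ | ⟨m, hm, ha⟩
    · obtain ⟨i, rfl⟩ := mask_bit m hm
      rw [alls_iff] at ha
      apply h1 i
      ext v
      have h3 := ha (w v) ((hmem _).2 ⟨v, rfl⟩)
      have h4 : w v &&& 2 ^ i.1 = 0 := Nat.eq_of_beq_eq_true h3
      have h5 := congrArg (fun t => Nat.testBit t i.1) h4
      simp only [Nat.testBit_and, Nat.testBit_two_pow_self, Bool.and_true, Nat.zero_testBit] at h5
      rw [hw] at h5
      rcases zz (f i v) with h | h
      · rw [h]; rfl
      · rw [h] at h5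
        exact absurd h5 (by decide)
    · obtain ⟨i, j, l, hl, m1, m2, m3⟩ := mask_line m hm
      rw [alls_iff] at ha
      have key : ∀ v, ∃ b : Bool, decide (f i v = 1) = b ∧ decide (f j v = 1) = b ∧
          decide (f l v = 1) = b := by
        intro v
        have h3 := ha (w v) ((hmem _).2 ⟨v, rfl⟩)
        rw [Bool.or_eq_true] at h3
        have tb : ∀ t : Fin 7, m.testBit t.1 = true → (w v &&& m).testBit t.1 =
            decide (f t v = 1) := by
          intro t ht
          rw [Nat.testBit_and, ht, Bool.and_true, hw]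
        rcases h3 with h3 | h3
        · have h4 : w v &&& m = 0 := Nat.eq_of_beq_eq_true h3
          refine ⟨false, ?_, ?_, ?_⟩
          · rw [← tb i m1, h4, Nat.zero_testBit]
          · rw [← tb j m2, h4, Nat.zero_testBit]
          · rw [← tb l m3, h4, Nat.zero_testBit]
        · have h4 : w v &&& m = m := Nat.eq_of_beq_eq_true h3
          refine ⟨true, ?_, ?_, ?_⟩
          · rw [← tb i m1, h4, m1]
          · rw [← tb j m2, h4, m2]
          · rw [← tb l m3, h4, m3]
      have heq : ∀ a b : ZMod 2, decide (a = 1) = decide (b = 1) → a = b := by decide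
      refine h2 i j l hl ⟨LinearMap.ext fun v => ?_, LinearMap.ext fun v => ?_⟩
      · obtain ⟨b, b1, b2, -⟩ := key v
        exact heq _ _ (b1.trans b2.symm)
      · obtain ⟨b, -, b2, b3⟩ := key v
        exact heq _ _ (b2.trans b3.symm)

end Pool.Agent.K3h25.ET2
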