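import Pool.Agent.K3h25.ET2.Code
import Pool.Agent.K3h25.ET2.Fano
import Pool.Agent.K3h25.ET.FieldLarge

/-! Additive quaternionic structures which are not of elementary type have many value groups of
large index. -/

set_option autoImplicit false

namespace Pool.Agent.K3h25.ET2

open Pool.Agent.H315R3.ETC Pool.Agent.W622.ETG Module Pool.Agent.TH188.ETP Pool.Agent.K3h25.ET

universe u v

section
variable {V : Type} [AddCommGroup V] [Module (ZMod 2) V] {e : V}

/-- the dimension of the space of values and the common kernel of the values -/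
theorem two_pow_vals [Finite V] (A : Fam V) (p : V) :
    2 ^ finrank (ZMod 2) (vals A p) * Nat.card {b : V // ∀ ω ∈ A, ω p b = 0} = Nat.card V := by
  let g : V →ₗ[ZMod 2] (vals A p →ₗ[ZMod 2] ZMod 2) :=
    { toFun := fun b => (LinearMap.applyₗ b).comp (vals A p).subtype
      map_add' := fun a b => by ext f; simp
      map_smul' := fun c b => by ext f; simp }
  have hg : ∀ b f, g b f = f.1 b := fun _ _ => rfl
  have hsurj : LinearMap.range g = ⊤ := by
    rw [eq_top_iff]
    rintro φ -
    obtain ⟨a, ha⟩ := exists_val (vals A p) φ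
    exact ⟨a, LinearMap.ext fun f => ha f⟩
  have hk : Nat.card (LinearMap.ker g) = Nat.card {b : V // ∀ ω ∈ A, ω p b = 0} := by
    refine Nat.card_congr (Equiv.subtypeEquivRight fun b => ?_)
    rw [LinearMap.mem_ker]
    constructor
    · intro h ω hω
      exact LinearMap.congr_fun h ⟨ω p, mem_vals.2 ⟨ω, hω, rfl⟩⟩
    · intro h
      ext ⟨f, hf⟩
      obtain ⟨ω, hω, rfl⟩ := mem_vals.1 hf
      exact h ω hω
  have h1 := g.toAddMonoidHom.ker.card_mul_index
  rw [AddSubgroup.index_ker] at h1
  have h2 : Nat.card g.toAddMonoidHom.range = 2 ^ finrank (ZMod 2) (vals A p) := by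
    have e1 : Nat.card g.toAddMonoidHom.range = Nat.card (LinearMap.range g) := rfl
    rw [e1, hsurj]
    have e2 : Nat.card (⊤ : Submodule (ZMod 2) (vals A p →ₗ[ZMod 2] ZMod 2)) =
        Nat.card (vals A p →ₗ[ZMod 2] ZMod 2) := Nat.card_congr (Equiv.Set.univ _)
    rw [e2, Module.natCard_eq_pow_finrank (K := ZMod 2), Nat.card_zmod, Subspace.dual_finrank_eq]
  have h3 : Nat.card g.toAddMonoidHom.ker = Nat.card (LinearMap.ker g) := rfl
  rw [h2, h3, hk] at h1
  rw [mul_comm]
  exact h1

theorem vals_mono {A B : Fam V} (h : B ≤ A) (v : V) : vals B v ≤ vals A v :=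
  Submodule.map_mono h

/-- complete linked families with few vectors with many values are hereditarily linked -/
theorem hered_of_few [Finite V] {A : Fam V} (hA : EFam e A) (hL : Linked A) (hC : Complete A)
    (h : 8 * {v : V | 4 ≤ finrank (ZMod 2) (vals A v)}.ncard < 3 * Nat.card V ∨
      8 * {v : V | 3 ≤ finrank (ZMod 2) (vals A v)}.ncard < 5 * Nat.card V) : Hered A := by
  have mono : ∀ (n : ℕ) (A B : Fam V), B ≤ A →
      {v : V | n ≤ finrank (ZMod 2) (vals B v)}.ncard ≤
        {v : V | n ≤ finrank (ZMod 2) (vals A v)}.ncard := by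
    intro n A B hBA
    refine Set.ncard_le_ncard (fun v hv => ?_) (Set.toFinite _)
    exact le_trans hv (Submodule.finrank_mono (vals_mono hBA v))
  refine hered_ofC (fun A => Complete A ∧
    (8 * {v : V | 4 ≤ finrank (ZMod 2) (vals A v)}.ncard < 3 * Nat.card V ∨
      8 * {v : V | 3 ≤ finrank (ZMod 2) (vals A v)}.ncard < 5 * Nat.card V)) ?_ ?_ hA hL ⟨hC, h⟩
  · rintro A u ⟨hC, h⟩
    refine ⟨hC.res _, ?_⟩
    have h1 := mono 4 A (res A (ann u)) (res_le A _)
    have h2 := mono 3 A (res A (ann u)) (res_le A _)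
    omega
  · rintro A hA hL ⟨hC, h⟩ x y z
    by_contra hP
    have hf : ¬ LG A (Submodule.span (ZMod 2) {x, y, z}) := fun h => hP (plane_of_lg h)
    obtain ⟨h1, h2⟩ := count stmFano hA hL hC hf
    omega

end

/-- few value groups of index greater than eight, or few of index greater than four -/
theorem elem_of_few (S : QData) (hS : IsQuat S) (hfin : Finite S.G) {B : Type v}
    [AddCommGroup B] (hB : ∀ b : B, b + b = 0) (β : S.G → S.G → B)
    (hmul : ∀ a b c, β a (b * c) = β a b + β a c)
    (hiff : ∀ a b c d, β a b = β c d ↔ S.q a b = S.q c d)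
    (h : 8 * {a : S.G | 8 < (D hS a).index}.ncard < 3 * Nat.card S.G ∨
      8 * {a : S.G | 4 < (D hS a).index}.ncard < 5 * Nat.card S.G) : Elem S := by
  refine elem_of_compl S hS hfin hB β hmul hiff ?_
  intro _ A hA hL hC hq
  have hfV : Finite (Additive S.G) := hfin
  have hidx : ∀ v : Additive S.G, 2 ^ finrank (ZMod 2) (vals A v) ≤ (D hS v.toMul).index := by
    intro v
    have h1 := two_pow_vals A v
    have q1 : S.q v.toMul 1 = S.zero := by
      have := (hS.qs3 v.toMul 1 1).1 rfl
      rwa [mul_one] at this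
    have h2 : Nat.card (D hS v.toMul) ≤ Nat.card {b : Additive S.G // ∀ ω ∈ A, ω v b = 0} := by
      refine Nat.card_le_card_of_injective
        (fun b => ⟨Additive.ofMul b.1, fun ω hω => ?_⟩) ?_
      · have := hq v.toMul b.1 v.toMul 1 (b.2.trans q1.symm) ω hω
        refine this.trans ?_
        exact map_zero (ω v)
      · intro a b hab
        exact Subtype.ext (congrArg (fun t => (Subtype.val t).toMul) hab)
    have h3 : Nat.card (D hS v.toMul) * (D hS v.toMul).index = Nat.card S.G :=
      (D hS v.toMul).card_mul_index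
    have h4 : Nat.card (Additive S.G) = Nat.card S.G := rfl
    have hpos : 0 < Nat.card (D hS v.toMul) := Nat.card_pos
    rw [h4, ← h3] at h1
    have h5 : 2 ^ finrank (ZMod 2) (vals A v) * Nat.card (D hS v.toMul) ≤
        (D hS v.toMul).index * Nat.card (D hS v.toMul) := by
      rw [mul_comm (D hS v.toMul).index, ← h1]
      exact Nat.mul_le_mul_left _ h2
    exact Nat.le_of_mul_le_mul_right h5 hpos
  have hcard : ∀ n : ℕ, {v : Additive S.G | n + 1 ≤ finrank (ZMod 2) (vals A v)}.ncard ≤
      {a : S.G | 2 ^ n < (D hS a).index}.ncard := by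
    intro n
    have himg : {v : Additive S.G | n + 1 ≤ finrank (ZMod 2) (vals A v)} ⊆
        Additive.ofMul '' {a : S.G | 2 ^ n < (D hS a).index} := by
      intro v hv
      refine ⟨v.toMul, ?_, rfl⟩
      show 2 ^ n < (D hS v.toMul).index
      have h1 : 2 ^ (n + 1) ≤ 2 ^ finrank (ZMod 2) (vals A v) :=
        Nat.pow_le_pow_right (by norm_num) hv
      have h2 := hidx v
      have h3 : (2 : ℕ) ^ n < 2 ^ (n + 1) := Nat.pow_lt_pow_right (by norm_num) (by omega)
      omega
    refine (Set.ncard_le_ncard himg (Set.toFinite _)).trans ?_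
    exact Set.ncard_image_le (Set.toFinite _)
  have h1 := hcard 3
  have h2 := hcard 2
  have h4 : Nat.card (Additive S.G) = Nat.card S.G := rfl
  refine hered_of_few hA hL hC ?_
  norm_num at h1 h2
  rw [h4]
  omega

section
open Pool.Agent.TH188.ET Pool.Agent.TH673.VG Pool.Agent.TH188.ETF Pool.Agent.HP778.QS

/-- fields -/
theorem field_of_few {F : Type u} [Field F] (h2 : (2 : F) ≠ 0) (hfin : FinSq F)
    (h : 8 * {x : Fˣ ⧸ squares F | ∃ a : Fˣ, (a : Fˣ ⧸ squares F) = x ∧
        8 < (normGroup a).index}.ncard < 3 * (squares F).index ∨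
      8 * {x : Fˣ ⧸ squares F | ∃ a : Fˣ, (a : Fˣ ⧸ squares F) = x ∧
        4 < (normGroup a).index}.ncard < 5 * (squares F).index) :
    ∃ S : QData, Elem S ∧ IsStructureOf F S := by
  obtain ⟨S, hS, φ, hst, hf, hs, hker, hD, -⟩ := setup h2 hfin
  obtain ⟨f, hfb, hfa⟩ := classes hker hs
  have hq : Finite (Fˣ ⧸ squares F) := Finite.of_injective f hfb.1
  obtain ⟨β, hmul, hiff⟩ := additive_of_structure h2 hst
  have hidx : ∀ a : Fˣ, (D hS (φ a)).index = (normGroup a).index := by
    intro a
    rw [← hD a, Subgroup.index_comap_of_surjective _ hs]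
  have hcard : (squares F).index = Nat.card S.G := by
    rw [← hker, Subgroup.index_ker, MonoidHom.range_eq_top.2 hs, Subgroup.card_top]
  have key : ∀ n : ℕ, {a : S.G | n < (D hS a).index}.ncard ≤
      {x : Fˣ ⧸ squares F | ∃ a : Fˣ, (a : Fˣ ⧸ squares F) = x ∧
        n < (normGroup a).index}.ncard := by
    intro n
    have hsub : {a : S.G | n < (D hS a).index} ⊆ f '' {x : Fˣ ⧸ squares F | ∃ a : Fˣ,
        (a : Fˣ ⧸ squares F) = x ∧ n < (normGroup a).index} := by
      intro y hy
      obtain ⟨a, rfl⟩ := hs y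
      refine ⟨(a : Fˣ ⧸ squares F), ⟨a, rfl, ?_⟩, hfa a⟩
      rw [← hidx]
      exact hy
    exact (Set.ncard_le_ncard hsub (Set.toFinite _)).trans (Set.ncard_image_le (Set.toFinite _))
  refine ⟨S, elem_of_few S hS hf B2_add_self β hmul hiff ?_, hst⟩
  have h8 := key 8
  have h4 := key 4
  rw [hcard] at h
  omega

end

end Pool.Agent.K3h25.ET2
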