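import Pool.Agent.K3h25.ET2.Compl

/-! Sections of linked families over subspaces, and their extension by one vector. -/

set_option autoImplicit false

namespace Pool.Agent.K3h25.ET2

open Pool.Agent.W622.ETG Module Pool.Agent.TH188.ETP Pool.Agent.K3h25.ET

section
variable {V : Type} [AddCommGroup V] [Module (ZMod 2) V] {e : V}

/-- `F` is a section of `A` over `W`: at each vector of `W` it is a value of a member of `A` -/
def Sec (A : Fam V) (W : Submodule (ZMod 2) V) (F : Frm V) : Prop := ∀ w ∈ W, In A w (F w)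

/-- a functional agrees on `W` with a member of `E` if it vanishes where it has to -/
theorem exists_agree [Finite V] (E : DSub V) (W : Submodule (ZMod 2) V) (φ : Dl V)
    (h : ∀ w ∈ W, (∀ f ∈ E, f w = 0) → φ w = 0) : ∃ f ∈ E, ∀ w ∈ W, f w = φ w := by
  have h1 : φ ∈ E ⊔ W.dualAnnihilator := by
    refine mem_of_coann fun b hb => ?_
    have hbW : b ∈ W := by
      have h2 : W.dualAnnihilator.dualCoannihilator = W :=
        Subspace.dualAnnihilator_dualCoannihilator_eq
      rw [← h2, Submodule.mem_dualCoannihilator]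
      intro ψ hψ
      exact hb ψ (Submodule.mem_sup_right hψ)
    exact h b hbW fun f hf => hb f (Submodule.mem_sup_left hf)
  obtain ⟨f, hf, ψ, hψ, rfl⟩ := Submodule.mem_sup.1 h1
  refine ⟨f, hf, fun w hw => ?_⟩
  rw [LinearMap.add_apply, (Submodule.mem_dualAnnihilator ψ).1 hψ w hw, add_zero]

theorem In.self {A : Fam V} (hA : EFam e A) {a : V} {f : Dl V} (h : In A a f) : f (a + e) = 0 := by
  obtain ⟨ω, hω, rfl⟩ := h
  exact (hA ω hω).self_e a

theorem triple {A : Fam V} (hL : Linked A) {W : Submodule (ZMod 2) V} {F : Frm V}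
    (hF : Sec A W F) (g : V) {w w' : V} (hw : w ∈ W) (hw' : w' ∈ W) :
    ∃ τ : Dl V, In A g τ ∧ In A (g + w) (τ + F w) ∧ In A (g + w') (τ + F w') := by
  obtain ⟨ω, hω, h1, h2⟩ := line (LinkedOn.of hL ⊤) (p := w) (q := w') Submodule.mem_top
    Submodule.mem_top (hF w hw) (hF w' hw') (by
      rw [← map_add]; exact hF _ (W.add_mem hw hw'))
  refine ⟨ω g, ⟨ω, hω, rfl⟩, ⟨ω, hω, ?_⟩, ⟨ω, hω, ?_⟩⟩
  · rw [map_add, h1]
  · rw [map_add, h2]

theorem val_eq {A : Fam V} (hA : EFam e A) (hL : Linked A) {g w : V} {τ f : Dl V}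
    (h1 : In A g τ) (h2 : In A w f) (h3 : In A (g + w) (τ + f)) : τ w = f g := by
  obtain ⟨ω, hω, e1, e2⟩ := line (LinkedOn.of hL ⊤) (p := g) (q := w) Submodule.mem_top
    Submodule.mem_top h1 h2 h3
  rw [← e1, ← e2]
  exact (hA ω hω).symm g w

/-- two of the sets of possible values at `g` meet, also if the values on `W` are prescribed -/
theorem pair [Finite V] {A : Fam V} (hA : EFam e A) (hL : Linked A) {W : Submodule (ZMod 2) V}
    {F : Frm V} (hF : Sec A W F) (g : V) {w : V} (hw : w ∈ W) :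
    ∃ τ : Dl V, In A g τ ∧ In A (g + w) (τ + F w) ∧ ∀ w' ∈ W, τ w' = F w' g := by
  obtain ⟨τ₀, h1, h2, -⟩ := triple hL hF g hw W.zero_mem
  let φ : Dl V := F.flip g + τ₀
  have hφ : ∀ v, φ v = F v g + τ₀ v := fun _ => rfl
  obtain ⟨κ, hκ, hκW⟩ := exists_agree (vals A g ⊓ vals A (g + w)) W φ (by
    intro w' hw' hk
    obtain ⟨τ', k1, k2, k3⟩ := triple hL hF g hw hw'
    have m1 : τ' + τ₀ ∈ vals A g := mem_vals.2 (k1.add h1)
    have m2 : τ' + τ₀ ∈ vals A (g + w) := by
      have := k2.add h2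
      have e1 : τ' + F w + (τ₀ + F w) = τ' + τ₀ := by
        have : τ' + F w + (τ₀ + F w) = τ' + τ₀ + (F w + F w) := by abel
        rw [this, vadd, add_zero]
      rw [e1] at this
      exact mem_vals.2 this
    have m3 := hk _ (Submodule.mem_inf.2 ⟨m1, m2⟩)
    rw [LinearMap.add_apply] at m3
    have m4 : τ' w' = F w' g := val_eq hA hL k1 (hF w' hw') k3
    rw [hφ, ← m4]
    exact m3)
  refine ⟨τ₀ + κ, h1.add (mem_vals.1 hκ.1), ?_, fun w' hw' => ?_⟩
  · have := h2.add (mem_vals.1 hκ.2)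
    have e1 : τ₀ + F w + κ = τ₀ + κ + F w := by abel
    rwa [e1] at this
  · rw [LinearMap.add_apply, hκW w' hw', hφ, add_comm, add_assoc, zadd, add_zero]

/-- the extension of a section by one value -/
theorem extend_val {A : Fam V} {W : Submodule (ZMod 2) V} {F : Frm V} (hF : Sec A W F) {g : V}
    (hg : g ∉ W) {τ : Dl V} (h : ∀ w ∈ W, In A (g + w) (τ + F w)) :
    ∃ F' : Frm V, Sec A (W ⊔ Submodule.span (ZMod 2) {g}) F' ∧ ∀ w ∈ W, F' w = F w := by
  obtain ⟨φ, h1, h2⟩ := Submodule.exists_le_ker_of_notMem hg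
  have φg : φ g = 1 := z_ne h1
  have φW : ∀ w ∈ W, φ w = 0 := fun w hw => h2 hw
  refine ⟨F + φ.smulRight (F g + τ), ?_, fun w hw => ?_⟩
  · intro v hv
    obtain ⟨w, hw, u, hu, rfl⟩ := Submodule.mem_sup.1 hv
    obtain ⟨c, rfl⟩ := Submodule.mem_span_singleton.1 hu
    rw [LinearMap.add_apply, LinearMap.smulRight_apply]
    rcases z01 c with rfl | rfl
    · rw [zero_smul, add_zero, φW w hw, zero_smul, add_zero]
      exact hF w hw
    · rw [one_smul, map_add, map_add φ, φW w hw, φg, zero_add, one_smul, add_comm w g]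
      have e1 : F w + F g + (F g + τ) = τ + F w := by
        have : F w + F g + (F g + τ) = τ + F w + (F g + F g) := by abel
        rw [this, vadd, add_zero]
      rw [e1]
      exact h w hw
  · rw [LinearMap.add_apply, LinearMap.smulRight_apply, φW w hw, zero_smul, add_zero]

/-- a section over `W` which has no extension in the sense of `(W, F)` maximal -/
structure MaxSec (A : Fam V) (W : Submodule (ZMod 2) V) (F : Frm V) : Prop where
  sec : Sec A W F
  ne : W ≠ ⊤
  max : ∀ g, g ∉ W → ∀ τ : Dl V, ¬ ∀ w ∈ W, In A (g + w) (τ + F w)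

/-- in a complete family a section over `P` which is not a member has a maximal extension -/
theorem exists_max [Finite V] {A : Fam V} (hC : Complete A) {P : Submodule (ZMod 2) V}
    {F₀ : Frm V} (hF : Sec A P F₀) (hn : ∀ ω ∈ A, ∃ p ∈ P, ω p ≠ F₀ p) :
    ∃ (W : Submodule (ZMod 2) V) (F : Frm V), P ≤ W ∧ (∀ p ∈ P, F p = F₀ p) ∧ MaxSec A W F := by
  classical
  let 𝓦 : Set (Submodule (ZMod 2) V) := {W | P ≤ W ∧ ∃ F, Sec A W F ∧ ∀ p ∈ P, F p = F₀ p}
  have hne : 𝓦.Nonempty := ⟨P, le_rfl, F₀, hF, fun _ _ => rfl⟩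
  have hfin : 𝓦.Finite := Set.toFinite _
  obtain ⟨W, hW, hmax⟩ := hfin.exists_maximal hne
  obtain ⟨hPW, F, hFW, hFP⟩ := hW
  refine ⟨W, F, hPW, hFP, hFW, ?_, ?_⟩
  · intro hT
    obtain ⟨p, hp, h⟩ := hn F (hC F fun v => hFW v (by rw [hT]; exact Submodule.mem_top))
    exact h (hFP p hp)
  · intro g hg τ h
    obtain ⟨F', h1, h2⟩ := extend_val hFW hg h
    have h3 : W ⊔ Submodule.span (ZMod 2) {g} ∈ 𝓦 :=
      ⟨hPW.trans le_sup_left, F', h1, fun p hp => (h2 p (hPW hp)).trans (hFP p hp)⟩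
    have h4 := hmax h3 le_sup_left
    exact hg (h4 (Submodule.mem_sup_right (Submodule.mem_span_singleton_self g)))

/-- each vector outside `W` has a nonzero value which vanishes on `W` -/
theorem MaxSec.exists_val [Finite V] {A : Fam V} (hA : EFam e A) (hL : Linked A)
    {W : Submodule (ZMod 2) V} {F : Frm V} (hM : MaxSec A W F) {g : V} (hg : g ∉ W) :
    ∃ f : Dl V, f ≠ 0 ∧ In A g f ∧ ∀ w ∈ W, f w = 0 := by
  by_contra hcon
  push Not at hcon
  obtain ⟨τ, h1, -, h2⟩ := pair hA hL hM.sec g W.zero_mem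
  refine hM.max g hg τ fun w hw => ?_
  obtain ⟨τ', k1, k2, k3⟩ := pair hA hL hM.sec g hw
  have h3 : τ + τ' = 0 := by
    by_contra hne
    obtain ⟨w', hw', h4⟩ := hcon _ hne (h1.add k1)
    apply h4
    rw [LinearMap.add_apply, h2 w' hw', k3 w' hw', zadd]
  rw [Pool.Agent.W622.ETC.add_eq_zero'.1 h3]
  exact k2

/-- `W` has codimension at least three -/
theorem MaxSec.codim [Finite V] {A : Fam V} (hA : EFam e A) (hL : Linked A)
    {W : Submodule (ZMod 2) V} {F : Frm V} (hM : MaxSec A W F) :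
    finrank (ZMod 2) W + 3 ≤ finrank (ZMod 2) V := by
  by_contra hlt
  -- a vector `g` such that at most one functional vanishes on `W` and at `g + e`
  obtain ⟨g, hg, φ, hφ⟩ : ∃ g, g ∉ W ∧ ∃ φ : Dl V, ∀ f : Dl V, (∀ w ∈ W, f w = 0) →
      f (g + e) = 0 → f = 0 ∨ f = φ := by
    have key : ∀ (g : V), finrank (ZMod 2) V ≤
        finrank (ZMod 2) (W ⊔ Submodule.span (ZMod 2) {g + e} : Submodule (ZMod 2) V) + 1 →
        ∃ φ : Dl V, ∀ f : Dl V, (∀ w ∈ W, f w = 0) → f (g + e) = 0 → f = 0 ∨ f = φ := by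
      intro g hg
      set U := W ⊔ Submodule.span (ZMod 2) {g + e} with hU
      have h1 : finrank (ZMod 2) U + finrank (ZMod 2) U.dualAnnihilator = finrank (ZMod 2) V :=
        Subspace.finrank_add_finrank_dualAnnihilator_eq U
      have h2 : finrank (ZMod 2) U.dualAnnihilator ≤ 1 := by omega
      obtain ⟨φ, hφ⟩ := finrank_le_one_iff.1 h2
      refine ⟨φ, fun f hf1 hf2 => ?_⟩
      have hfU : f ∈ U.dualAnnihilator := by
        rw [Submodule.mem_dualAnnihilator]
        intro u hu
        obtain ⟨w, hw, u', hu', rfl⟩ := Submodule.mem_sup.1 hu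
        obtain ⟨c, rfl⟩ := Submodule.mem_span_singleton.1 hu'
        rw [map_add, map_smul, hf1 w hw, hf2, smul_zero, add_zero]
      obtain ⟨c, hc⟩ := hφ ⟨f, hfU⟩
      have hc' : c • (φ : Dl V) = f := congrArg Subtype.val hc
      rcases z01 c with rfl | rfl
      · left; rw [← hc', zero_smul]
      · right; rw [← hc', one_smul]
    obtain ⟨g₀, hg₀⟩ : ∃ g₀, g₀ ∉ W := by
      by_contra hcon
      push Not at hcon
      exact hM.ne ((Submodule.eq_top_iff').2 hcon)
    by_cases hg : ∃ g, g ∉ W ∧ g + e ∉ W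
    · obtain ⟨g, hg1, hg2⟩ := hg
      refine ⟨g, hg1, key g ?_⟩
      have h1 : W < W ⊔ Submodule.span (ZMod 2) {g + e} := by
        refine lt_of_le_of_ne le_sup_left fun h => hg2 ?_
        rw [h]
        exact Submodule.mem_sup_right (Submodule.mem_span_singleton_self _)
      have h2 := Submodule.finrank_lt_finrank_of_lt h1
      omega
    · push Not at hg
      refine ⟨g₀, hg₀, key g₀ ?_⟩
      have h1 : W ⊔ Submodule.span (ZMod 2) {g₀} = ⊤ := by
        rw [Submodule.eq_top_iff']
        intro v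
        by_cases hv : v ∈ W
        · exact Submodule.mem_sup_left hv
        · have h3 : v + g₀ ∈ W := by
            have := W.add_mem (hg v hv) (hg g₀ hg₀)
            have e1 : v + e + (g₀ + e) = v + g₀ := by
              have : v + e + (g₀ + e) = v + g₀ + (e + e) := by abel
              rw [this, vadd, add_zero]
            rwa [e1] at this
          have h4 : v = v + g₀ + g₀ := by rw [add_assoc, vadd, add_zero]
          rw [h4]
          exact Submodule.add_mem_sup h3 (Submodule.mem_span_singleton_self _)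
      have h2 : finrank (ZMod 2) V ≤ finrank (ZMod 2) W + 1 := by
        have h3 := Submodule.finrank_add_le_finrank_add_finrank W (Submodule.span (ZMod 2) {g₀})
        rw [h1, finrank_top] at h3
        have h4 : finrank (ZMod 2) (Submodule.span (ZMod 2) {g₀}) ≤ 1 :=
          (finrank_span_le_card _).trans (by simp)
        omega
      have h5 : finrank (ZMod 2) W ≤
          finrank (ZMod 2) (W ⊔ Submodule.span (ZMod 2) {g₀ + e} : Submodule (ZMod 2) V) :=
        Submodule.finrank_mono le_sup_left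
      omega
  -- `φ` is a value at all vectors of `g + W`
  have hφv : ∀ w ∈ W, In A (g + w) φ := by
    intro w hw
    have h1 : g + w ∉ W := fun h => hg ((W.add_mem_iff_left hw).1 h)
    obtain ⟨f, hf0, hf1, hf2⟩ := hM.exists_val hA hL h1
    have h2 : f (g + w + e) = 0 := In.self hA hf1
    have h3 : f (g + e) = 0 := by
      have e1 : g + w + e = g + e + w := by abel
      rw [e1, map_add, hf2 w hw, add_zero] at h2
      exact h2
    rcases hφ f hf2 h3 with h4 | h4
    · exact absurd h4 hf0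
    · rw [← h4]; exact hf1
  obtain ⟨τ, h1, -, h2⟩ := pair hA hL hM.sec g W.zero_mem
  refine hM.max g hg τ fun w hw => ?_
  obtain ⟨τ', k1, k2, k3⟩ := pair hA hL hM.sec g hw
  have h3 := hφ (τ + τ') (fun w' hw' => by
      rw [LinearMap.add_apply, h2 w' hw', k3 w' hw', zadd]) (by
      rw [LinearMap.add_apply, In.self hA h1, In.self hA k1, add_zero])
  rcases h3 with h4 | h4
  · rw [Pool.Agent.W622.ETC.add_eq_zero'.1 h4]
    exact k2
  · have h5 : τ + F w = τ' + F w + φ := by
      have : τ = τ' + φ := by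
        rw [← h4]
        have : τ' + (τ + τ') = τ + (τ' + τ') := by abel
        rw [this, vadd, add_zero]
      rw [this]
      abel
    rw [h5]
    exact k2.add (hφv w hw)

end

end Pool.Agent.K3h25.ET2
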